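import Pool.Agent.N206.CG.Stm2

/-!
# CG/RULB (helper787, project CG of helper206): rules for sections of automorphisms, part B
-/

set_option autoImplicit false

namespace Pool.Agent.N787.CG

open Classical Pool.Agent.N206.CG

variable {L : Loc} (S : Sys L)

theorem exists_ne_one (n : ℕ) : ∃ g : S.D n, g ≠ 1 := by
  obtain ⟨x, -, y, -, hxy⟩ := L.X_two n
  obtain ⟨g, hg⟩ := S.exists_rt n x y
  refine ⟨S.rt n g, fun h => hxy ?_⟩
  rw [h, map_one, Equiv.Perm.one_apply] at hg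
  exact hg

theorem lam_uniq (n : ℕ) (x y : L.E n) (a b : S.D (n + 1)) (ha : a ≠ 1)
    (h : S.lam n x a = S.lam n y b) : x = y ∧ a = b := by
  have h1 := congrArg (fun u => S.sec n u x) h
  simp only [Sys.sec_lam_self] at h1
  rw [S.sec_lam] at h1
  by_cases hxy : x = y
  · rw [if_pos hxy] at h1
    exact ⟨hxy, h1⟩
  · rw [if_neg hxy] at h1
    exact absurd h1 ha

theorem conj_one (n : ℕ) : MulAut.conj (1 : S.D n) = 1 := map_one _

theorem conj_ap {G : Type} [Group G] (α : MulAut G) (d : G) :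
    MulAut.conj (α d) = α * MulAut.conj d * α⁻¹ := by
  apply MulEquiv.ext
  intro y
  rw [MulAut.mul_apply, MulAut.mul_apply, MulAut.conj_apply, MulAut.conj_apply, map_mul, map_mul,
    map_inv, MulAut.apply_inv_self]

/-- an automorphism with trivial permutation and trivial sections is trivial -/
theorem triv1 (h0 : S_D1 S) (hz : S_Z S) (n : ℕ) (γ : MulAut (S.D n)) (h1 : S.sg n γ = 1)
    (h2 : ∀ x, S.asc n γ x = 1) : γ = 1 := by
  have hl : ∀ x g, γ (S.lam n x g) = S.lam n x g := by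
    intro x g
    rw [h0 n γ x g, h1, h2, Equiv.Perm.one_apply, MulAut.one_apply]
  have hu : ∀ u, S.root n u = 1 → γ u = u := by
    intro u hu
    have h3 : u ∈ MonoidHom.eqLocus γ.toMonoidHom (MonoidHom.id (S.D n)) :=
      S.mem_of_lam n _ u hu (fun x => hl x _)
    exact h3
  apply MulEquiv.ext
  intro d
  rw [MulAut.one_apply]
  have hw : ∀ u, S.root n u = 1 → (d⁻¹ * γ d) * u * (d⁻¹ * γ d)⁻¹ = u := by
    intro u hu1
    have h3 : S.root n (d * u * d⁻¹) = 1 := by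
      rw [map_mul, map_mul, hu1, map_inv]
      group
    have h4 := hu _ h3
    rw [map_mul, map_mul, map_inv, hu u hu1] at h4
    calc (d⁻¹ * γ d) * u * (d⁻¹ * γ d)⁻¹ = d⁻¹ * (γ d * u * (γ d)⁻¹) * d := by group
      _ = d⁻¹ * (d * u * d⁻¹) * d := by rw [h4]
      _ = u := by group
  obtain ⟨w, hwd⟩ : ∃ w, w = d⁻¹ * γ d := ⟨_, rfl⟩
  rw [← hwd] at hw
  have h5 : ∀ x g, g ≠ 1 → S.root n w x = x ∧ S.sec n w x * g * (S.sec n w x)⁻¹ = g := by
    intro x g hg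
    have h6 := hw (S.lam n x g) (S.root_lam n x g)
    rw [S.conj_lam] at h6
    obtain ⟨h7, h8⟩ := lam_uniq S n x _ g _ hg h6.symm
    exact ⟨h7.symm, h8.symm⟩
  have hw1 : w = 1 := by
    apply S.ext
    · rw [map_one]
      apply Equiv.ext
      intro x
      obtain ⟨g, hg⟩ := exists_ne_one S (n + 1)
      exact (h5 x g hg).1
    · intro x
      rw [S.sec_one]
      apply hz
      intro g
      by_cases hg : g = 1
      · rw [hg, mul_one, one_mul]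
      · have h6 := (h5 x g hg).2
        rw [mul_inv_eq_iff_eq_mul] at h6
        exact h6
  rw [hwd, inv_mul_eq_one] at hw1
  exact hw1.symm

theorem asc_inn (h : RulesA S) (n : ℕ) (α : MulAut (S.D n)) (x y : L.E n) :
    ∃ d, S.asc n α y = MulAut.conj d * S.asc n α x := by
  obtain ⟨g, hg⟩ := S.exists_rt n x y
  have h1 := h.comm_ap n α (S.rt n g) x
  rw [hg, S.sec_rt, conj_one, mul_one] at h1
  exact ⟨_, h1⟩

theorem jay_lam (n : ℕ) (x : L.E n) (g : S.D (n + 1)) :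
    S.jay n (S.lam n x g) = S.lam n (L.J n x) (S.jay (n + 1) g) := by
  apply S.ext
  · rw [S.root_jay, S.root_lam, S.root_lam, mul_one, mul_inv_cancel]
  · intro y
    obtain ⟨w, rfl⟩ := (L.J n).surjective y
    rw [S.sec_jay, S.sec_lam, S.sec_lam]
    by_cases hw : w = x
    · rw [if_pos hw, if_pos (by rw [hw])]
    · rw [if_neg hw, if_neg (fun e => hw ((L.J n).injective e)), map_one]

theorem jay_facts (h0 : S_D1 S) (n : ℕ) :
    S.sg n (S.jay n) = L.J n ∧ ∀ x, S.asc n (S.jay n) x = S.jay (n + 1) := by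
  have h1 : ∀ x g, S.lam n (S.sg n (S.jay n) x) (S.asc n (S.jay n) x g) =
      S.lam n (L.J n x) (S.jay (n + 1) g) := by
    intro x g
    rw [← h0 n (S.jay n) x g]
    exact jay_lam S n x g
  have h2 : ∀ x, S.sg n (S.jay n) x = L.J n x := by
    intro x
    obtain ⟨g, hg⟩ := exists_ne_one S (n + 1)
    refine (lam_uniq S n _ _ _ _ ?_ (h1 x g)).1
    intro e
    apply hg
    exact (map_eq_one_iff _ (S.asc n (S.jay n) x).injective).1 e
  refine ⟨Equiv.ext h2, fun x => ?_⟩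
  apply MulEquiv.ext
  intro g
  have h3 := h1 x g
  rw [h2] at h3
  exact S.lam_inj n _ _ _ h3

theorem inn (h : RulesA S) (h0 : S_D1 S) (hz : S_Z S) (n : ℕ) (α : MulAut (S.D n))
    (hα : S.sg n α ∈ L.P n) (hx : ∃ x e, S.asc n α x = MulAut.conj e) :
    ∃ d, α = MulAut.conj d := by
  obtain ⟨x, e, hxe⟩ := hx
  obtain ⟨r, hr⟩ : ∃ r : L.P n, (r : Equiv.Perm (L.E n)) = S.sg n α := ⟨⟨_, hα⟩, rfl⟩
  obtain ⟨β, hβ⟩ : ∃ β, β = MulAut.conj (S.rt n r)⁻¹ * α := ⟨_, rfl⟩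
  have hβ1 : S.sg n β = 1 := by
    rw [hβ, h.sg_mul, h.sg_conj, map_inv, S.root_rt, hr, inv_mul_cancel]
  have hβ2 : ∀ y, S.asc n β y = S.asc n α y := by
    intro y
    rw [hβ, h.asc_mul, h.asc_conj, S.sec_inv, S.sec_rt, inv_one, conj_one, one_mul]
  have hβ3 : ∀ y, ∃ d, S.asc n β y = MulAut.conj d := by
    intro y
    obtain ⟨d, hd⟩ := asc_inn S h n α x y
    refine ⟨d * e, ?_⟩
    rw [hβ2, hd, hxe, map_mul]
  choose f hf using hβ3
  obtain ⟨ε, hε⟩ : ∃ ε, ε = S.mkk n f 1 := ⟨_, rfl⟩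
  have hε1 : S.root n ε = 1 := by
    rw [hε, S.root_mk]
    rfl
  have hε2 : ∀ y, S.sec n ε y = f y := by
    intro y
    rw [hε, S.sec_mk]
  have hγ : (MulAut.conj ε)⁻¹ * β = 1 := by
    apply triv1 S h0 hz n
    · rw [h.sg_mul, h.sg_inv, h.sg_conj, hε1, hβ1, inv_one, mul_one]
    · intro y
      have h1 := h.asc_inv n (MulAut.conj ε) y
      rw [h.sg_conj, hε1, Equiv.Perm.one_apply] at h1
      rw [h.asc_mul, hβ1, Equiv.Perm.one_apply, h1, h.asc_conj, hε2, hf, inv_mul_cancel]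
  have hβε : β = MulAut.conj ε := by
    rw [inv_mul_eq_one] at hγ
    exact hγ.symm
  refine ⟨S.rt n r * ε, ?_⟩
  rw [map_mul, ← hβε, hβ, ← mul_assoc, ← map_mul, mul_inv_cancel, map_one, one_mul]

/-- families of automorphisms with trivial permutations -/
def Fam (K : ∀ n, Set (MulAut (S.D n))) : Prop :=
  ∀ n, ∀ α ∈ K n, S.sg n α = 1 ∧ ∀ x, S.asc n α x ∈ K (n + 1)

/-- the union of all families -/
def LT (n : ℕ) : Set (MulAut (S.D n)) := {α | ∃ K, Fam S K ∧ α ∈ K n}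

theorem LT_fam : Fam S (LT S) := by
  rintro n α ⟨K, hK, hα⟩
  exact ⟨(hK n α hα).1, fun x => ⟨K, hK, (hK n α hα).2 x⟩⟩

theorem LT_mul (h : RulesA S) (n : ℕ) (α α' : MulAut (S.D n)) (hα : α ∈ LT S n)
    (hα' : α' ∈ LT S n) : α * α' ∈ LT S n := by
  refine ⟨fun n => {γ | ∃ α ∈ LT S n, ∃ α' ∈ LT S n, γ = α * α'}, ?_, α, hα, α', hα', rfl⟩
  rintro n γ ⟨α, hα, α', hα', rfl⟩
  obtain ⟨a1, a2⟩ := LT_fam S n α hα
  obtain ⟨b1, b2⟩ := LT_fam S n α' hα'
  refine ⟨by rw [h.sg_mul, a1, b1, mul_one], fun x => ⟨_, a2 x, _, b2 x, ?_⟩⟩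
  rw [h.asc_mul, b1, Equiv.Perm.one_apply]

theorem LT_inv (h : RulesA S) (n : ℕ) (α : MulAut (S.D n)) (hα : α ∈ LT S n) :
    α⁻¹ ∈ LT S n := by
  refine ⟨fun n => {γ | ∃ α ∈ LT S n, γ = α⁻¹}, ?_, α, hα, rfl⟩
  rintro n γ ⟨α, hα, rfl⟩
  obtain ⟨a1, a2⟩ := LT_fam S n α hα
  refine ⟨by rw [h.sg_inv, a1, inv_one], fun x => ⟨_, a2 x, ?_⟩⟩
  have h1 := h.asc_inv n α x
  rwa [a1, Equiv.Perm.one_apply] at h1

theorem LT_conj (h : RulesA S) (n : ℕ) (α β : MulAut (S.D n)) (hα : α ∈ LT S n) :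
    β * α * β⁻¹ ∈ LT S n := by
  refine ⟨fun n => {γ | ∃ β : MulAut (S.D n), ∃ α ∈ LT S n, γ = β * α * β⁻¹}, ?_, β, α, hα, rfl⟩
  rintro n γ ⟨β, α, hα, rfl⟩
  obtain ⟨a1, a2⟩ := LT_fam S n α hα
  refine ⟨by rw [h.sg_mul, h.sg_mul, h.sg_inv, a1, mul_one, mul_inv_cancel], fun y => ?_⟩
  obtain ⟨x, rfl⟩ := (S.sg n β).surjective y
  refine ⟨S.asc n β x, _, a2 x, ?_⟩
  have e : S.sg n β⁻¹ (S.sg n β x) = x := by
    rw [h.sg_inv, ← Equiv.Perm.mul_apply, inv_mul_cancel, Equiv.Perm.one_apply]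
  rw [h.asc_mul, h.asc_inv, e, h.asc_mul, a1, Equiv.Perm.one_apply]

theorem triv (h : RulesA S) (K : ∀ n, Set (MulAut (S.D n))) (hK : Fam S K) (n : ℕ)
    (α : MulAut (S.D n)) (hα : α ∈ K n) : α = 1 := by
  have hα' : α ∈ LT S n := ⟨K, hK, hα⟩
  have key : ∀ n, ∀ u ∈ {u : S.D n | MulAut.conj u ∈ LT S n}, u = 1 := by
    refine S.faith (fun n => {u : S.D n | MulAut.conj u ∈ LT S n}) ?_
    intro n u hu
    obtain ⟨a1, a2⟩ := LT_fam S n _ hu
    refine ⟨by rw [← h.sg_conj, a1], fun x => ?_⟩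
    show MulAut.conj (S.sec n u x) ∈ LT S (n + 1)
    rw [← h.asc_conj]
    exact a2 x
  apply MulEquiv.ext
  intro d
  rw [MulAut.one_apply]
  have h1 : α d * d⁻¹ = 1 := by
    apply key n
    show MulAut.conj (α d * d⁻¹) ∈ LT S n
    have e : MulAut.conj (α d * d⁻¹) = α * (MulAut.conj d * α⁻¹ * (MulAut.conj d)⁻¹) := by
      rw [map_mul, conj_ap, map_inv]
      simp only [mul_assoc]
    rw [e]
    exact LT_mul S h n _ _ hα' (LT_conj S h n _ _ (LT_inv S h n α hα'))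
  exact mul_inv_eq_one.1 h1

theorem t_RULB (h : RulesA S) (h0 : S_D1 S) (hz : S_Z S) : RulesB S where
  asc_inn := asc_inn S h
  sg_jay := fun n => (jay_facts S h0 n).1
  asc_jay := fun n => (jay_facts S h0 n).2
  inn := inn S h h0 hz
  triv := triv S h

end Pool.Agent.N787.CG
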